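import Mathlib

/-! Support-preserving convolution endomorphisms: ratios of coefficients are local. -/

open Filter Finset AddMonoidAlgebra

namespace Pool.Agent.H.MP_847c7e_pr

variable {d : ℕ}

abbrev Z (d : ℕ) := Fin d → ℤ
abbrev A (d : ℕ) := AddMonoidAlgebra ℝ (Z d)

def N (p : A d) : Prop := (∀ x, 0 ≤ p.coeff x) ∧ p ≠ 0

lemma co (f g : A d) (x : Z d) : (f * g).coeff x = ∑ a ∈ g.coeff.support, f.coeff (x - a) * g.coeff a := by
  simp only [coeff_mul_apply_right, Finsupp.sum, sub_eq_add_neg]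

lemma N.mul {p q : A d} (hp : N p) (hq : N q) : N (p * q) :=
  ⟨fun x => co p q x ▸ sum_nonneg fun _ _ => mul_nonneg (hp.1 _) (hq.1 _), mul_ne_zero hp.2 hq.2⟩

lemma two (f g : A d) {x a b : Z d} (hab : a ≠ b)
    (h : ∀ c, g.coeff c ≠ 0 → c ≠ a → c ≠ b → f.coeff (x - c) = 0) :
    (f * g).coeff x = f.coeff (x - a) * g.coeff a + f.coeff (x - b) * g.coeff b := by
  rw [co, sum_eq_add a b hab (fun c hc e => by rw [h c (by simpa using hc) e.1 e.2, zero_mul])
    (fun e => by simp [Finsupp.notMem_support_iff.1 e]) fun e => by simp [Finsupp.notMem_support_iff.1 e]]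

lemma one (f g : A d) {x a : Z d} (h : ∀ c, g.coeff c ≠ 0 → c ≠ a → f.coeff (x - c) = 0) :
    (f * g).coeff x = f.coeff (x - a) * g.coeff a := by
  rw [co, sum_eq_single a (fun c hc e => by rw [h c (by simpa using hc) e, zero_mul])
    fun e => by simp [Finsupp.notMem_support_iff.1 e]]

lemma ex_φ {v : Z d} (h : v ≠ 0) : ∃ φ : Z d →+ ℤ, 0 < φ v := by
  obtain ⟨i, hi⟩ := Function.ne_iff.1 h
  exact ⟨(AddMonoidHom.mulLeft (v i)).comp (Pi.evalAddMonoidHom _ i), mul_self_pos.2 hi⟩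

lemma ext' {S : Finset (Z d)} (hS : S.Nonempty) (w : Z d) : ∃ e ∈ S, w ≠ 0 → e + w ∉ S := by
  by_cases h : w = 0
  · exact hS.imp fun e he => ⟨he, fun k => absurd h k⟩
  obtain ⟨φ, p⟩ := ex_φ h
  obtain ⟨e, he, m⟩ := S.exists_max_image φ hS
  exact ⟨e, he, fun _ k => by have := m _ k; rw [map_add] at this; omega⟩

noncomputable def H (y : Z d) (c : ℝ) : A d := single 0 1 + single y c

lemma Hc (p : A d) (y z : Z d) (a c : ℝ) :
    (p * (single 0 a + single y c)).coeff z = p.coeff z * a + p.coeff (z - y) * c := by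
  simp [mul_add, sub_eq_add_neg]

lemma H0 {y : Z d} (h : y ≠ 0) (c : ℝ) : (H y c).coeff 0 = 1 := by simp [H, h]
lemma H1 {y : Z d} (h : y ≠ 0) (c : ℝ) : (H y c).coeff y = c := by simp [H, h]
lemma H2 {y z : Z d} (h : z ≠ 0) (k : z ≠ y) (c : ℝ) : (H y c).coeff z = 0 := by simp [H, h, k]

lemma HN {y : Z d} (h : y ≠ 0) {c : ℝ} (hc : 0 < c) : N (H y c) := by
  refine ⟨fun x => ?_, fun e => by simpa [e] using H0 h c⟩
  by_cases a : x = 0
  · rw [a, H0 h]; norm_num
  by_cases b : x = y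
  · rw [b, H1 h]; exact hc.le
  rw [H2 a b]

noncomputable def G (v y : Z d) (τ B : ℝ) : A d :=
  single 0 (-τ) + single (-v) 1 + single y B + single (-y) B + single (y + y) B + single (-(y + y)) B

lemma Gc (p : A d) (v y z : Z d) (τ B : ℝ) : (p * G v y τ B).coeff z = p.coeff (z + v) - τ * p.coeff z +
    B * (p.coeff (z - y) + p.coeff (z + y) + p.coeff (z - (y + y)) + p.coeff (z + (y + y))) := by
  simp only [G, mul_add, coeff_add, Finsupp.add_apply, coeff_mul_single_apply, sub_eq_add_neg, neg_neg,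
    neg_zero, add_zero]
  ring

lemma Gs {v y z : Z d} {τ B : ℝ} (h : (G v y τ B).coeff z ≠ 0) :
    z = 0 ∨ z = -v ∨ z = y ∨ z = -y ∨ z = y + y ∨ z = -(y + y) := by
  by_contra! k
  simp only [G, coeff_add, coeff_single, Finsupp.add_apply, Finsupp.single_eq_of_ne k.1,
    Finsupp.single_eq_of_ne k.2.1, Finsupp.single_eq_of_ne k.2.2.1, Finsupp.single_eq_of_ne k.2.2.2.1,
    Finsupp.single_eq_of_ne k.2.2.2.2.1, Finsupp.single_eq_of_ne k.2.2.2.2.2] at h
  simp at h

lemma ne (φ : Z d →+ ℤ) {a b : Z d} (h : φ a ≠ φ b) : a ≠ b := fun e => h (e ▸ rfl)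

lemma Gv {v y : Z d} {τ B : ℝ} (φ : Z d →+ ℤ) (h0 : 0 < φ v) (h1 : φ v < φ y) :
    (G v y τ B).coeff (-v) = 1 := by
  simp only [G, coeff_add, coeff_single, Finsupp.add_apply, Finsupp.single_eq_same]
  rw [Finsupp.single_eq_of_ne, Finsupp.single_eq_of_ne, Finsupp.single_eq_of_ne, Finsupp.single_eq_of_ne,
    Finsupp.single_eq_of_ne]
  · simp
  all_goals exact ne φ (by simp only [map_neg, map_add, map_zero]; omega)

structure E (Ψ : A d → A d) : Prop where
  nn : ∀ p, N p → ∀ x, 0 ≤ (Ψ p).coeff x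
  mul : ∀ p q, N p → N q → Ψ (p * q) = Ψ p * Ψ q
  sup : ∀ p, N p → ∀ x, (Ψ p).coeff x = 0 ↔ p.coeff x = 0

variable {Ψ : A d → A d} (h : E Ψ)
include h

lemma E.pos {p : A d} (hp : N p) {x : Z d} (k : p.coeff x ≠ 0) : 0 < (Ψ p).coeff x :=
  (h.nn p hp x).lt_of_ne' fun e => k ((h.sup p hp x).1 e)

lemma E.toN {p : A d} (hp : N p) : N (Ψ p) := ⟨h.nn p hp, fun e => hp.2 (by
  ext x; simpa [e] using h.sup p hp x)⟩

lemma E.bin {y : Z d} (y0 : y ≠ 0) {c : ℝ} (hc : 0 < c) :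
    Ψ (H y c) = single 0 ((Ψ (H y c)).coeff 0) + single y ((Ψ (H y c)).coeff y) := by
  ext x
  by_cases a : x = 0
  · simp [a, y0]
  by_cases b : x = y
  · simp [b, y0]
  simp [a, b, (h.sup _ (HN y0 hc) x).2 (H2 a b c)]

lemma E.gam {v y : Z d} {τ B : ℝ} (φ : Z d →+ ℤ) (h0 : 0 < φ v) (h1 : φ v < φ y) (t0 : 0 ≤ τ) (tB : τ ≤ B) :
    ∃ Γ : A d, (∀ p, N p → N (p * G v y τ B) → Ψ (p * G v y τ B) = Ψ p * Γ) ∧ Γ.coeff (-v) ≠ 0 ∧
      ∀ x, Γ.coeff x ≠ 0 → (G v y τ B).coeff x ≠ 0 ∨ (G v y τ B).coeff (x - y) ≠ 0 ∨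
        (G v y τ B).coeff (x - (y + y)) ≠ 0 := by
  have y0 : y ≠ 0 := ne φ (by simp; omega)
  have y1 : y + y ≠ 0 := ne φ (by simp; omega)
  have g0 : G v y τ B ≠ 0 := fun e => by simpa [e] using Gv (τ := τ) (B := B) φ h0 h1
  have n1 := HN y0 one_pos
  have n2 := HN y1 one_pos
  have k : ∀ w, w = y ∨ w = y + y → N (H w 1 * G v y τ B) := fun w hw => by
    have w0 : w ≠ 0 := by rcases hw with rfl | rfl <;> assumption
    have n := HN w0 one_pos
    refine ⟨fun z => ?_, mul_ne_zero n.2 g0⟩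
    have : (H w 1).coeff z ≤ (H w 1).coeff (z - w) + (H w 1).coeff (z + w) := by
      by_cases a : z = 0
      · rw [a, zero_add, H0 w0, H1 w0]; linarith [n.1 (0 - w)]
      by_cases b : z = w
      · rw [b, sub_self, H0 w0, H1 w0]; linarith [n.1 (w + w)]
      rw [H2 a b]; linarith [n.1 (z - w), n.1 (z + w)]
    rw [Gc]
    have := n.1 z
    have := n.1 (z + v)
    have := n.1 (z - y)
    have := n.1 (z + y)
    have := n.1 (z - (y + y))
    have := n.1 (z + (y + y))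
    rcases hw with rfl | rfl <;> nlinarith
  have k1 := k _ (.inl rfl)
  have k2 := k _ (.inr rfl)
  have e : Ψ (H y 1 * G v y τ B) * Ψ (H (y + y) 1) = Ψ (H (y + y) 1 * G v y τ B) * Ψ (H y 1) := by
    rw [← h.mul _ _ k1 n2, ← h.mul _ _ k2 n1]; congr 1; ring
  have b1 := h.bin y0 one_pos
  have b2 := h.bin y1 one_pos
  have p0 := h.pos n1 (x := 0) (by simp [H0 y0])
  have p1 := h.pos n1 (x := y) (by simp [H1 y0])
  have p2 := h.pos n2 (x := 0) (by simp [H0 y1])
  have p3 := h.pos n2 (x := y + y) (by simp [H1 y1])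
  generalize (Ψ (H y 1)).coeff 0 = a0, (Ψ (H y 1)).coeff y = a1, (Ψ (H (y + y) 1)).coeff 0 = a2,
    (Ψ (H (y + y) 1)).coeff (y + y) = a3 at b1 b2 p0 p1 p2 p3
  have c0 : a1 ^ 2 * a2 + a3 * a0 ^ 2 ≠ 0 := by positivity
  set c := a1 ^ 2 * a2 + a3 * a0 ^ 2
  let Γ := Ψ (H (y + y) 1 * G v y τ B) * single 0 (a1 ^ 2 / c) +
    Ψ (H y 1 * G v y τ B) * (single 0 (a3 * a0 / c) + single y (-(a3 * a1 / c)))
  have bz : Ψ (H (y + y) 1) * single 0 (a1 ^ 2 / c) +
      Ψ (H y 1) * (single 0 (a3 * a0 / c) + single y (-(a3 * a1 / c))) = 1 := by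
    rw [b1, b2]
    simp only [add_mul, mul_add, single_mul_single, add_zero, zero_add, one_def]
    ext x
    simp only [coeff_add, coeff_single, Finsupp.add_apply, Finsupp.single_apply]
    split_ifs <;> simp_all <;> field_simp <;> simp [c] <;> ring
  have f : Ψ (H y 1 * G v y τ B) = Γ * Ψ (H y 1) := by
    simp only [Γ]
    linear_combination (-Ψ (H y 1 * G v y τ B)) * bz + single 0 (a1 ^ 2 / c) * e
  have s1 : ∀ w x, N (H w 1 * G v y τ B) → (Ψ (H w 1 * G v y τ B)).coeff x ≠ 0 →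
      (G v y τ B).coeff x ≠ 0 ∨ (G v y τ B).coeff (x - w) ≠ 0 := fun w x n q => by
    by_contra! o
    exact q ((h.sup _ n x).2 (by rw [mul_comm, H, Hc, o.1, o.2]; simp))
  have s : ∀ x, Γ.coeff x ≠ 0 → (G v y τ B).coeff x ≠ 0 ∨ (G v y τ B).coeff (x - y) ≠ 0 ∨
      (G v y τ B).coeff (x - (y + y)) ≠ 0 := fun x q => by
    by_contra! o
    have u1 := mt (s1 _ x k2) (by simp [o.1, o.2.2])
    have u2 := mt (s1 _ x k1) (by simp [o.1, o.2.1])
    have u3 := mt (s1 _ (x - y) k1) (by simp [sub_sub, o.2.1, o.2.2])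
    simp only [not_not] at u1 u2 u3
    exact q (by simp only [Γ, coeff_add, Finsupp.add_apply, Hc, u2, u3]; simp [u1])
  have gz : ∀ x, φ x ≠ 0 → φ x ≠ -φ v → φ x ≠ φ y → φ x ≠ -φ y → φ x ≠ φ y + φ y → φ x ≠ -(φ y + φ y) →
      (G v y τ B).coeff x = 0 := fun x _ _ _ _ _ _ => by
    by_contra o
    rcases Gs o with rfl | rfl | rfl | rfl | rfl | rfl <;> simp_all
  refine ⟨Γ, fun p n m => mul_right_cancel₀ (b := Ψ (H y 1)) (h.toN n1).2 ?_, fun q => ?_, s⟩
  · rw [mul_assoc, ← f, ← h.mul _ _ m n1, ← h.mul _ _ n k1]; congr 1; ring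
  · have u : Γ.coeff (-v - y) = 0 := by
      by_contra o
      rcases s _ o with o | o | o <;> refine o (gz _ ?_ ?_ ?_ ?_ ?_ ?_) <;>
        simp only [map_sub, map_neg, map_add] <;> omega
    have := (h.sup _ k1 (-v)).1 (by rw [f, b1, Hc, q, u]; simp)
    rw [mul_comm, H, Hc, Gv φ h0 h1, gz] at this
    · simp at this
    all_goals simp only [map_sub, map_neg]; omega

lemma E.key {p : A d} (hp : N p) {s v : Z d} {τ : ℝ} (φ : Z d →+ ℤ) (h0 : 0 < φ v) (hs : p.coeff s ≠ 0)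
    (ht : p.coeff (s + v) = τ * p.coeff s) (t0 : 0 < τ) : ∃ M, ∀ y, M < φ y → ∀ᶠ B in atTop, ∀ Γ : A d,
      (∀ p, N p → N (p * G v y τ B) → Ψ (p * G v y τ B) = Ψ p * Γ) →
      (∀ x, Γ.coeff x ≠ 0 → (G v y τ B).coeff x ≠ 0 ∨ (G v y τ B).coeff (x - y) ≠ 0 ∨
        (G v y τ B).coeff (x - (y + y)) ≠ 0) →
      (Ψ p).coeff s * Γ.coeff 0 + (Ψ p).coeff (s + v) * Γ.coeff (-v) = 0 := by
  classical
  obtain ⟨M, hM⟩ : ∃ M, ∀ x, p.coeff x ≠ 0 → -M ≤ φ x ∧ φ x ≤ M := by
    obtain ⟨M, hM⟩ := (p.coeff.support.image fun x => |φ x|).bddAbove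
    exact ⟨M, fun x hx => abs_le.1 (hM (by simpa using ⟨x, hx, rfl⟩))⟩
  have hv : p.coeff (s + v) ≠ 0 := ht ▸ mul_ne_zero t0.ne' hs
  have m1 := hM s hs
  have m2 := hM _ hv
  rw [map_add] at m2
  choose e e1 e2 using ext' (S := p.coeff.support) ⟨s, by simpa using hs⟩
  simp only [Finsupp.mem_support_iff, not_not] at e1 e2
  refine ⟨4 * M, fun y hy => ?_⟩
  let S := p.coeff.support.erase s
  let R : Finset (Z d) := insert 0 (S.image (fun t => t - e (s - t) + y) ∪
    S.image fun t => t - e (s - t) + (y + (y + y)))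
  let ρ : A d := ⟨Finsupp.onFinset R (fun x => if x ∈ R then 1 else 0) fun x => by simp⟩
  have ρc : ∀ x, ρ.coeff x = if x ∈ R then 1 else 0 := fun _ => rfl
  have r0 : ρ.coeff 0 ≠ 0 := by simp [ρc, R]
  have nρ : N ρ := ⟨fun x => by rw [ρc]; split_ifs <;> norm_num, fun e => r0 (by simp [e])⟩
  have rs : ∀ r, ρ.coeff r ≠ 0 → r = 0 ∨ ∃ t, t ≠ s ∧ p.coeff t ≠ 0 ∧
      (r = t - e (s - t) + y ∨ r = t - e (s - t) + (y + (y + y))) := fun r k => by
    have : r ∈ R := by by_contra o; simp [ρc, o] at k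
    simp only [R, S, mem_insert, mem_union, mem_image, mem_erase, Finsupp.mem_support_iff] at this
    rcases this with k | ⟨t, a, rfl⟩ | ⟨t, a, rfl⟩
    exacts [.inl k, .inr ⟨t, a.1, a.2, .inl rfl⟩, .inr ⟨t, a.1, a.2, .inr rfl⟩]
  have n := hp.mul nρ
  have up : ∀ a r, p.coeff a ≠ 0 → r ∈ R → 0 < (p * ρ).coeff (a + r) := fun a r ha hr => by
    rw [co]
    exact sum_pos' (fun _ _ => mul_nonneg (hp.1 _) (nρ.1 _))
      ⟨r, by simp [ρc, hr], by simpa [ρc, hr] using (hp.1 a).lt_of_ne' ha⟩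
  have dn : ∀ z, (p * ρ).coeff z ≠ 0 → ∃ r, ρ.coeff r ≠ 0 ∧ p.coeff (z - r) ≠ 0 := fun z k => by
    rw [co] at k
    obtain ⟨r, -, k⟩ := exists_ne_zero_of_sum_ne_zero k
    exact ⟨r, right_ne_zero_of_mul k, left_ne_zero_of_mul k⟩
  have zero : ∀ x, (x = -y ∨ φ x = -(φ y + φ y) ∨ φ y - φ v ≤ φ x) → (p * ρ).coeff (s - x) = 0 :=
    fun x hx => by
      by_contra k
      obtain ⟨r, a, b⟩ := dn _ k
      have c := hM _ b
      rcases rs r a with rfl | ⟨t, ts, tp, rfl | rfl⟩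
      · rcases hx with rfl | hx <;> simp only [map_sub, map_neg, map_zero] at c <;> omega
      · have := hM _ tp
        have := hM _ (e1 (s - t))
        rcases hx with rfl | hx
        · exact b (by rw [← e2 (s - t) (sub_ne_zero.2 ts.symm)]; congr 1; abel)
        · simp only [map_sub, map_add] at c; omega
      · have := hM _ tp
        have := hM _ (e1 (s - t))
        rcases hx with rfl | hx <;> simp only [map_sub, map_add, map_neg] at c <;> omega
  have pure : ∀ (q σ : A d), (∀ x, p.coeff x = 0 → q.coeff x = 0) → (∀ x, ρ.coeff x = 0 → σ.coeff x = 0) →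
      ∀ a, p.coeff a ≠ 0 → (q * σ).coeff a = q.coeff a * σ.coeff 0 := fun q σ hq hσ a ha => by
    rw [one q σ (a := 0) fun r k r0 => hq _ ?_, sub_zero]
    by_contra b
    have c := hM _ b
    have := hM _ ha
    rcases rs r (mt (hσ r) k) with rfl | ⟨t, ts, tp, rfl | rfl⟩
    · exact r0 rfl
    all_goals
      have := hM _ tp
      have := hM _ (e1 (s - t))
      simp only [map_sub, map_add] at c; omega
  have prot : ∀ z ∈ (p * ρ).coeff.support.erase s, 0 < (p * ρ).coeff (z - y) + (p * ρ).coeff (z + y) +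
      (p * ρ).coeff (z - (y + y)) + (p * ρ).coeff (z + (y + y)) := fun z hz => by
    obtain ⟨zs, k⟩ := mem_erase.1 hz
    obtain ⟨r, a, b⟩ := dn _ (Finsupp.mem_support_iff.1 k)
    have := n.1 (z - y)
    have := n.1 (z + y)
    have := n.1 (z - (y + y))
    have := n.1 (z + (y + y))
    rcases rs r a with rfl | ⟨t, ts, tp, rfl | rfl⟩
    · have := up _ (z - e (s - z) + y) (e1 (s - z)) (by
        simp only [R, S, mem_insert, mem_union, mem_image, mem_erase, Finsupp.mem_support_iff]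
        exact .inr (.inl ⟨z, ⟨zs, by simpa using b⟩, rfl⟩))
      rw [show e (s - z) + (z - e (s - z) + y) = z + y by abel] at this
      linarith
    · have := up _ (t - e (s - t) + (y + (y + y))) b (by
        simp only [R, S, mem_insert, mem_union, mem_image, mem_erase, Finsupp.mem_support_iff]
        exact .inr (.inr ⟨t, ⟨ts, tp⟩, rfl⟩))
      rw [show z - (t - e (s - t) + y) + (t - e (s - t) + (y + (y + y))) = z + (y + y) by abel] at this
      linarith
    · have := up _ (t - e (s - t) + y) b (by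
        simp only [R, S, mem_insert, mem_union, mem_image, mem_erase, Finsupp.mem_support_iff]
        exact .inr (.inl ⟨t, ⟨ts, tp⟩, rfl⟩))
      rw [show z - (t - e (s - t) + (y + (y + y))) + (t - e (s - t) + y) = z - (y + y) by abel] at this
      linarith
  filter_upwards [(eventually_all_finset _).2 fun z hz =>
    (tendsto_id.atTop_mul_const (prot z hz)).eventually_ge_atTop (τ * (p * ρ).coeff z),
    eventually_ge_atTop 0] with B hB B0 Γ g1 g2
  have w0 : (p * ρ * G v y τ B).coeff s = 0 := by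
    have a := zero (-y) (.inl rfl)
    have b := zero (-(y + y)) (.inr (.inl (by simp)))
    rw [sub_neg_eq_add] at a b
    rw [Gc, a, b, zero y (.inr (.inr (by omega))), zero (y + y) (.inr (.inr (by rw [map_add]; omega))),
      pure p ρ (fun _ => id) (fun _ => id) s hs, pure p ρ (fun _ => id) (fun _ => id) _ hv, ht]
    ring
  have nW : N (p * ρ * G v y τ B) := by
    refine ⟨fun z => ?_, mul_ne_zero n.2 fun e => by
      simpa [e] using Gv (τ := τ) (B := B) φ h0 (show φ v < φ y by omega)⟩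
    by_cases zs : z = s
    · rw [zs, w0]
    rw [Gc]
    by_cases k : (p * ρ).coeff z = 0
    · have := n.1 (z - y)
      have := n.1 (z + y)
      have := n.1 (z - (y + y))
      have := n.1 (z + (y + y))
      have := n.1 (z + v)
      rw [k, mul_zero, sub_zero]
      positivity
    · have := hB z (mem_erase.2 ⟨zs, Finsupp.mem_support_iff.2 k⟩)
      simp only [id] at this
      linarith [n.1 (z + v)]
  have a := (h.sup _ nW s).2 w0
  have u1 := fun x => (h.sup p hp x).2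
  have u2 := fun x => (h.sup ρ nρ x).2
  rw [g1 _ n nW, two _ _ (a := 0) (b := -v) (ne φ (by simp; omega)) fun x k x0 xv => (h.sup _ n _).2 (zero x ?_),
    sub_zero, sub_neg_eq_add, h.mul _ _ hp nρ, pure _ _ u1 u2 s hs, pure _ _ u1 u2 _ hv] at a
  · exact mul_left_cancel₀ (h.pos nρ r0).ne' (by linarith)
  · rcases g2 x k with o | o | o <;> rcases Gs o with o | o | o | o | o | o <;>
      first
      | exact absurd o x0
      | exact absurd o xv
      | exact .inl o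
      | (have := congrArg φ o; (try simp only [map_sub, map_add, map_neg, map_zero] at this); right; omega)
      | (left; rw [sub_eq_iff_eq_add.1 o]; abel1)
      | (exfalso; apply x0; rw [sub_eq_iff_eq_add.1 o]; abel1)

omit h in
lemma chi {χ : ℝ → ℝ} (h0 : ∀ x, 0 < x → 0 < χ x) (h1 : χ 1 = 1)
    (hm : ∀ x y, 0 < x → 0 < y → χ (x * y) = χ x * χ y) (ha : ∀ x, 0 < x → χ (1 + x) = 1 + χ x) :
    ∀ x, 0 < x → χ x = x := by
  have a : ∀ x y, 0 < x → 0 < y → χ (x + y) = χ x + χ y := fun x y hx hy => by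
    have := hm x (y / x) hx (by positivity)
    rw [show x + y = x * (1 + y / x) by field_simp, hm _ _ hx (by positivity), ha _ (by positivity),
      mul_add, ← this, mul_one, mul_div_cancel₀ _ hx.ne']
  have b : ∀ n : ℕ, χ (n + 1) = n + 1 := fun n => by
    induction n with
    | zero => simpa using h1
    | succ n ih => push_cast; rw [a _ _ (by positivity) one_pos, ih, h1]
  have b' : ∀ n : ℕ, 0 < n → χ n = n := fun n hn => by
    obtain ⟨n, rfl⟩ := Nat.exists_eq_succ_of_ne_zero hn.ne'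
    simpa using b n
  have mo : ∀ x y, 0 < x → x < y → χ x < χ y := fun x y hx l => by
    have := a x (y - x) hx (by linarith)
    rw [add_sub_cancel] at this
    linarith [h0 (y - x) (by linarith)]
  have q : ∀ r : ℚ, 0 < r → χ r = r := fun r hr => by
    have d0 : (0 : ℝ) < r.den := by exact_mod_cast r.den_pos
    have e : (r : ℝ) * r.den = (r.num.toNat : ℕ) := by
      have : ((r.num.toNat : ℕ) : ℤ) = r.num := Int.toNat_of_nonneg (Rat.num_pos.2 hr).le
      rw [← Int.cast_natCast (R := ℝ) r.num.toNat, this]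
      exact_mod_cast r.mul_den_eq_num
    have := hm r r.den (by exact_mod_cast hr) d0
    rw [e, b' _ (by have := Rat.num_pos.2 hr; omega), b' _ r.den_pos, ← e] at this
    exact (mul_right_cancel₀ d0.ne' this).symm
  intro x hx
  rcases lt_trichotomy (χ x) x with l | l | l
  · obtain ⟨r, r1, r2⟩ := exists_rat_btwn l
    have r0 : (0 : ℝ) < r := (h0 x hx).trans r1
    linarith [mo r x r0 r2, q r (by exact_mod_cast r0)]
  · exact l
  · obtain ⟨r, r1, r2⟩ := exists_rat_btwn l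
    linarith [mo x r hx r1, q r (by exact_mod_cast hx.trans r1)]

noncomputable def f (Ψ : A d → A d) (v : Z d) (τ : ℝ) : ℝ := (Ψ (H v τ)).coeff v / (Ψ (H v τ)).coeff 0

lemma E.f0 {v : Z d} (v0 : v ≠ 0) {τ : ℝ} (t0 : 0 < τ) : 0 < f Ψ v τ :=
  div_pos (h.pos (HN v0 t0) (by simp [H1 v0, t0.ne'])) (h.pos (HN v0 t0) (by simp [H0 v0]))

lemma E.ratio {p : A d} (hp : N p) {s v : Z d} {τ : ℝ} (v0 : v ≠ 0) (hs : p.coeff s ≠ 0)
    (ht : p.coeff (s + v) = τ * p.coeff s) (t0 : 0 < τ) :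
    (Ψ p).coeff (s + v) = f Ψ v τ * (Ψ p).coeff s := by
  obtain ⟨φ, h0⟩ := ex_φ v0
  obtain ⟨M, a⟩ := h.key hp φ h0 hs ht t0
  obtain ⟨M', b⟩ := h.key (HN v0 t0) (s := 0) φ h0 (by simp [H0 v0]) (by simp [H0 v0, H1 v0]) t0
  have l : ∀ k : ℤ, 0 ≤ k → k ≤ φ (k • v) := fun k hk => by rw [map_zsmul, smul_eq_mul]; nlinarith
  have := l (|M| + |M'| + φ v + 1) (by positivity)
  have := le_abs_self M
  have := le_abs_self M'
  have := abs_nonneg M
  have := abs_nonneg M'
  generalize (|M| + |M'| + φ v + 1) • v = y at *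
  obtain ⟨B, ⟨a, b⟩, c⟩ := (((a y (by omega)).and (b y (by omega))).and (eventually_ge_atTop τ)).exists
  obtain ⟨Γ, g1, g0, g2⟩ := h.gam (y := y) φ h0 (by omega) t0.le c
  have a := a Γ g1 g2
  have b := b Γ g1 g2
  have c := (h.pos (HN v0 t0) (x := 0) (by simp [H0 v0])).ne'
  rw [zero_add] at b
  rw [f, div_mul_eq_mul_div, eq_div_iff c]
  exact mul_right_cancel₀ g0 (by linear_combination (Ψ (H v τ)).coeff 0 * a - (Ψ p).coeff s * b)

lemma E.coc {v w : Z d} (v0 : v ≠ 0) (w0 : w ≠ 0) (u0 : v + w ≠ 0) {τ σ : ℝ} (t0 : 0 < τ) (s0 : 0 < σ) :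
    f Ψ (v + w) (σ * τ) = f Ψ w σ * f Ψ v τ := by
  have vw : v + w ≠ v := by simpa using w0
  let p : A d := H v τ + single (v + w) (σ * τ)
  have p0 : p.coeff 0 = 1 := by simp [p, H0 v0, u0]
  have p1 : p.coeff v = τ := by simp [p, H1 v0, vw]
  have p2 : p.coeff (v + w) = σ * τ := by simp [p, H2 u0 vw]
  have n : N p := ⟨fun x => add_nonneg ((HN v0 t0).1 x) (by
    show 0 ≤ Finsupp.single _ _ x
    rw [Finsupp.single_apply]; split_ifs <;> positivity), fun e => by simp [e] at p0⟩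
  have a := h.ratio n (s := 0) v0 (by simp [p0]) (by simp [p0, p1]) t0
  have b := h.ratio n (s := v) w0 (by simp [p1, t0.ne']) (by rw [p1, p2]) s0
  have c := h.ratio n (s := 0) u0 (τ := σ * τ) (by simp [p0]) (by simp [p0, p2]) (by positivity)
  rw [zero_add] at a c
  exact mul_right_cancel₀ (h.pos n (x := 0) (by simp [p0])).ne' (by rw [← c, b, a]; ring)

lemma E.lin {v : Z d} (v0 : v ≠ 0) {τ : ℝ} (t0 : 0 < τ) : f Ψ v τ = τ * f Ψ v 1 := by
  obtain ⟨φ, h0⟩ := ex_φ v0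
  have v2 : v + v ≠ 0 := ne φ (by simp; omega)
  have l := (h.f0 v0 one_pos).ne'
  rw [← div_eq_iff l]
  refine chi (χ := fun τ => f Ψ v τ / f Ψ v 1) (fun x hx => div_pos (h.f0 v0 hx) (h.f0 v0 one_pos))
    (div_self l) (fun x y hx hy => ?_) (fun x hx => ?_) τ t0
  · have a := h.coc v0 v0 v2 hy hx
    have b := h.coc v0 v0 v2 one_pos (mul_pos hx hy)
    rw [mul_one, a] at b
    field_simp
    linarith
  · have n1 := HN v0 one_pos
    have n2 := HN v0 hx
    have m : 0 - v ≠ v := ne φ (by simp; omega)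
    have m0 : 0 - v ≠ 0 := by simpa using v0
    have c0 : (H v 1 * H v x).coeff 0 = 1 := by rw [H.eq_1 v x, Hc, H0 v0, H2 m0 m]; ring
    have a := h.ratio (n1.mul n2) (s := 0) (τ := 1 + x) v0 (by simp [c0])
      (by rw [c0, zero_add, H.eq_1 v x, Hc, H1 v0, sub_self, H0 v0]; ring) (by positivity)
    rw [h.mul _ _ n1 n2, h.bin v0 hx, Hc, Hc, zero_add, sub_self, (h.sup _ n1 _).2 (H2 m0 m 1)] at a
    have p0 := (h.pos n1 (x := 0) (by simp [H0 v0])).ne'
    have p1 := (h.pos n1 (x := v) (by simp [H1 v0])).ne'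
    have p2 := (h.pos n2 (x := 0) (by simp [H0 v0])).ne'
    rw [div_eq_iff l, f.eq_1 Ψ v x, f.eq_1 Ψ v 1]
    field_simp
    linarith

theorem E.main : ∃ β : Fin d → ℝ, ∀ p, N p → ∃ c, ∀ x,
    (Ψ p).coeff x = c * (p.coeff x * Real.exp (-∑ i, β i * x i)) := by
  classical
  let l : Z d → ℝ := fun v => if v = 0 then 0 else Real.log (f Ψ v 1)
  have a : ∀ v w, l (v + w) = l v + l w := fun v w => by
    by_cases v0 : v = 0
    · simp [l, v0]
    by_cases w0 : w = 0
    · simp [l, w0]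
    have pv := (h.f0 v0 one_pos).ne'
    have pw := (h.f0 w0 one_pos).ne'
    by_cases u0 : v + w = 0
    · have a := h.ratio (HN v0 one_pos) (s := v) w0 (by simp [H1 v0]) (by simp [u0, H0 v0, H1 v0]) one_pos
      have b := h.ratio (HN v0 one_pos) (s := 0) v0 (by simp [H0 v0]) (by simp [H0 v0, H1 v0]) one_pos
      rw [zero_add] at b
      rw [u0, b, ← mul_assoc] at a
      have c := (h.pos (HN v0 one_pos) (x := 0) (by simp [H0 v0])).ne'
      simp only [l, if_pos u0, if_neg v0, if_neg w0]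
      rw [← Real.log_mul pv pw, mul_comm, ← mul_right_cancel₀ c ((one_mul _).trans a), Real.log_one]
    · have := h.coc v0 w0 u0 one_pos one_pos
      rw [mul_one] at this
      simp only [l, if_neg u0, if_neg v0, if_neg w0, this, Real.log_mul pw pv, add_comm]
  let L : Z d →+ ℝ := .mk' l a
  have b : ∀ x, -∑ i, -L (Pi.single i 1) * x i = L x := fun x => by
    conv_rhs => rw [← Finset.univ_sum_single x, map_sum]
    rw [← sum_neg_distrib]
    exact sum_congr rfl fun i _ => by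
      rw [show Pi.single i (x i) = x i • (Pi.single i 1 : Z d) by simp [← Pi.single_smul], map_zsmul]
      simp [mul_comm]
  refine ⟨fun i => -L (Pi.single i 1), fun p hp => ?_⟩
  obtain ⟨s, hs⟩ : ∃ s, p.coeff s ≠ 0 := by
    by_contra! k
    exact hp.2 (by ext x; simp [k])
  have e0 := fun x => (Real.exp_pos x).ne'
  refine ⟨(Ψ p).coeff s / (p.coeff s * Real.exp (L s)), fun x => ?_⟩
  rw [b]
  by_cases k : p.coeff x = 0
  · simp [k, (h.sup p hp x).2 k]
  by_cases xs : x = s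
  · rw [xs]; field_simp
  obtain ⟨v, rfl⟩ : ∃ v, x = s + v := ⟨x - s, by abel⟩
  have v0 : v ≠ 0 := by simpa using xs
  have t0 := div_pos ((hp.1 _).lt_of_ne' k) ((hp.1 _).lt_of_ne' hs)
  rw [h.ratio hp v0 hs (div_mul_cancel₀ _ hs).symm t0, h.lin v0 t0, map_add L, Real.exp_add,
    show L v = Real.log (f Ψ v 1) from if_neg v0, Real.exp_log (h.f0 v0 one_pos)]
  field_simp

omit h

def P (d : ℕ) := {μ : (Fin d → ℤ) →₀ ℝ // (∀ x, 0 ≤ μ x) ∧ ∑ x ∈ μ.support, μ x = 1}

def Conv (μ ν ρ : P d) : Prop := ∀ x, ρ.1 x = ∑ y ∈ μ.1.support, μ.1 y * ν.1 (x - y)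

noncomputable def m : A d →ₐ[ℝ] ℝ := AddMonoidAlgebra.lift ℝ ℝ (Z d) 1

lemma m_eq (p : A d) : m p = ∑ x ∈ p.coeff.support, p.coeff x := by simp [m, lift_apply, Finsupp.sum]

lemma N.m_pos {p : A d} (hp : N p) : 0 < m p := by
  rw [m_eq]
  exact sum_pos (fun x k => (hp.1 x).lt_of_ne' (by simpa using k))
    (Finsupp.support_nonempty_iff.2 fun e => hp.2 (by ext; simp [e]))

noncomputable def nor (p : A d) (hp : N p) : P d := ⟨((m p)⁻¹ • p).coeff,
  fun x => mul_nonneg (inv_nonneg.2 hp.m_pos.le) (hp.1 x), by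
    rw [← m_eq, map_smul, smul_eq_mul, inv_mul_cancel₀ hp.m_pos.ne']⟩

lemma conv {μ ν ρ : P d} : Conv μ ν ρ ↔ (ofCoeff ρ.1 : A d) = ofCoeff μ.1 * ofCoeff ν.1 := by
  rw [mul_comm]
  refine ⟨fun k => ?_, fun k x => ?_⟩
  · ext x; rw [co]; simpa [mul_comm] using k x
  · have := congrArg (fun p : A d => p.coeff x) k
    simp only [co] at this
    simpa [mul_comm] using this

theorem main (Φ : P d → P d) (hm : ∀ μ ν ρ, Conv μ ν ρ → Conv (Φ μ) (Φ ν) (Φ ρ))
    (hs : ∀ μ, (Φ μ).1.support = μ.1.support) : ∃ β : Fin d → ℝ, ∀ μ x, (Φ μ).1 x =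
      μ.1 x * Real.exp (-∑ i, β i * x i) / ∑ y ∈ μ.1.support, μ.1 y * Real.exp (-∑ i, β i * y i) := by
  classical
  let Ψ : A d → A d := fun p => if hp : N p then ofCoeff (Φ (nor p hp)).1 else 0
  have e : ∀ p (hp : N p), Ψ p = ofCoeff (Φ (nor p hp)).1 := fun p hp => dif_pos hp
  have h : E Ψ := ⟨fun p hp x => e p hp ▸ (Φ _).2.1 x, fun p q hp hq => by
    rw [e _ hp, e _ hq, e _ (hp.mul hq)]
    refine conv.1 (hm _ _ _ (conv.2 ?_))
    simp only [nor, ofCoeff_coeff, map_mul, mul_inv, smul_mul_smul_comm], fun p hp x => by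
    rw [e p hp, ← Finsupp.notMem_support_iff, coeff_ofCoeff, hs]
    simp [nor, hp.m_pos.ne']⟩
  obtain ⟨β, hβ⟩ := h.main
  refine ⟨β, fun μ x => ?_⟩
  have m1 : m (ofCoeff μ.1 : A d) = 1 := (m_eq _).trans μ.2.2
  have n : N (ofCoeff μ.1 : A d) := ⟨μ.2.1, fun k => by simp [k] at m1⟩
  obtain ⟨c, hc⟩ := hβ _ n
  rw [e _ n, show nor _ n = μ from Subtype.ext (by simp [nor, m1])] at hc
  have s := (Φ μ).2.2
  simp only [coeff_ofCoeff] at hc
  rw [hs, sum_congr rfl fun y _ => hc y, ← mul_sum] at s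
  rw [hc, eq_div_iff (right_ne_zero_of_mul_eq_one s)]
  linear_combination (μ.1 x * Real.exp (-∑ i, β i * x i)) * s

end Pool.Agent.H.MP_847c7e_pr
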